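import Pool.Agent.Helper20.IIC.Stmts

/-! # SIMN: consequence of Simon's inequality -/

set_option autoImplicit false

namespace IIC

open Filter Topology Set

theorem SIMN_step {d : ℕ} {x y : Fin d → ℤ} (h : (lat d).Adj x y) : nrm y ≤ nrm x + 1 := by
  unfold nrm
  apply Finset.sup_le
  intro i _
  have h1 : |x i - y i| ≤ 1 := by
    have h0 : ∑ i, |x i - y i| = 1 := h
    rw [← h0]
    exact Finset.single_le_sum (f := fun i => |x i - y i|) (fun j _ => abs_nonneg _)
      (Finset.mem_univ i)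
  have h2 : (x i).natAbs ≤ Finset.univ.sup fun i => (x i).natAbs :=
    Finset.le_sup (f := fun i => (x i).natAbs) (Finset.mem_univ i)
  rw [abs_le] at h1
  omega

theorem SIMN_adj {d : ℕ} {T : Set (Ed d)} {x y : Fin d → ℤ} (h : Step le T x y) :
    (lat d).Adj x y := by
  obtain ⟨e, _, he⟩ := h
  have h1 : e.1 ∈ (lat d).edgeSet := e.2
  have h2 : e.1 = s(x, y) := he
  rw [h2] at h1
  exact h1

theorem SIMN_cross {d : ℕ} {ω : Cfg d} {x y : Fin d → ℤ} (h : LConn ω x y) (n : ℕ)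
    (hx : nrm x ≤ n) (hy : n ≤ nrm y) : ∃ z, nrm z = n ∧ LConn ω x z := by
  unfold LConn Conn at h
  induction h with
  | refl => exact ⟨x, le_antisymm hx hy, Relation.ReflTransGen.refl⟩
  | @tail b c hab hbc ih =>
    by_cases hb : n ≤ nrm b
    · exact ih hb
    · have h1 := SIMN_step (SIMN_adj hbc)
      exact ⟨c, by omega, hab.tail hbc⟩

theorem SIMN_nrm_le {d : ℕ} (z : Fin d → ℤ) (i : Fin d) : (z i).natAbs ≤ nrm z :=
  Finset.le_sup (f := fun i => (z i).natAbs) (Finset.mem_univ i)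

theorem SIMN_mem_Icc {d : ℕ} {z : Fin d → ℤ} {n : ℕ} (h : nrm z ≤ n) :
    z ∈ Finset.Icc (fun _ : Fin d => -(n : ℤ)) (fun _ => (n : ℤ)) := by
  rw [Finset.mem_Icc]
  constructor
  · intro i
    have := SIMN_nrm_le z i
    show -(n : ℤ) ≤ z i
    omega
  · intro i
    have := SIMN_nrm_le z i
    show z i ≤ (n : ℤ)
    omega

theorem SIMN_mem_sph {d : ℕ} {z : Fin d → ℤ} {n : ℕ} (h : nrm z = n) : z ∈ sph d n := by
  classical
  unfold sph
  rw [Finset.mem_filter]
  exact ⟨SIMN_mem_Icc h.le, h⟩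

theorem SIMN_nrm_single {d : ℕ} (i : Fin d) (n : ℕ) : n ≤ nrm (Pi.single i (n : ℤ) : Fin d → ℤ) := by
  have h := SIMN_nrm_le (Pi.single i (n : ℤ) : Fin d → ℤ) i
  rw [Pi.single_eq_same] at h
  simpa using h

/-- infinite sets of points are unbounded -/
theorem SIMN_unbdd {d : ℕ} {s : Set (Fin d → ℤ)} (hs : s.Infinite) (N : ℕ) :
    ∃ z ∈ s, N ≤ nrm z := by
  by_contra hcon
  push Not at hcon
  apply hs
  refine (Finset.finite_toSet (Finset.Icc (fun _ : Fin d => -(N : ℤ)) (fun _ => (N : ℤ)))).subset ?_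
  intro z hz
  exact Finset.mem_coe.mpr (SIMN_mem_Icc (hcon z hz).le)

theorem SIMN_trans {d : ℕ} {ω : Cfg d} {x y z : Fin d → ℤ} (h1 : LConn ω x y) (h2 : LConn ω y z) :
    LConn ω x z := Relation.ReflTransGen.trans h1 h2

theorem st_SIMN (hSIML : ST_SIML) (hLIM : ST_LIM) (hTWB : ST_TWB) (hLATC : ST_LATC)
    (hCONT : ST_CONT) (hUPS : ST_UPS) : ST_SIMN := by
  classical
  intro d hd β hβ hth n hn
  obtain ⟨_, hfar, _⟩ := hLATC d hd
  obtain ⟨_, _, hINx, _⟩ := hTWB d hd β hβ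
  obtain ⟨hup, _⟩ := hLIM d β hβ
  -- finite volume inequality
  have hfin : ∀ Λ : Finset (Ed d), PW β Λ (IN 0) ≤
      ∑ z ∈ sph d n, PW β Λ (CN 0 z) * PW β Λ (IN z) := by
    intro Λ
    choose N hN using fun T => hfar Λ T
    set M : ℕ := Λ.powerset.sup N + n + 1 with hM
    set y : Fin d → ℤ := Pi.single ⟨0, by omega⟩ (M : ℤ) with hy
    have hyM : M ≤ nrm y := SIMN_nrm_single _ _
    have hNT : ∀ T ⊆ Λ, N T ≤ Λ.powerset.sup N := fun T hT =>
      Finset.le_sup (f := N) (Finset.mem_powerset.mpr hT)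
    have key : ∀ x : Fin d → ℤ, PW β Λ (CN x y) = PW β Λ (IN x) := by
      intro x
      refine (hCONT d Λ).2 β hβ |>.2.2.2.2 _ _ ?_
      intro T hT
      have hNT' := hNT T hT
      constructor
      · intro h
        have h' : LConn (exw Λ T) x y := h
        show Set.Infinite {z | LConn (exw Λ T) x z}
        refine Set.infinite_of_injective_forall_mem
          (f := fun k : ℕ => (Pi.single ⟨0, by omega⟩ ((M + k : ℕ) : ℤ) : Fin d → ℤ)) ?_ ?_
        · intro a b hab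
          have := congrFun hab ⟨0, by omega⟩
          simp only [Pi.single_eq_same] at this
          omega
        · intro k
          have h2 : M + k ≤ nrm (Pi.single ⟨0, by omega⟩ ((M + k : ℕ) : ℤ) : Fin d → ℤ) :=
            SIMN_nrm_single _ _
          exact SIMN_trans h' (hN T y _ (by omega) (by omega))
      · intro h
        have h' : Set.Infinite {z | LConn (exw Λ T) x z} := h
        obtain ⟨z, hz1, hz2⟩ := SIMN_unbdd h' (N T)
        exact SIMN_trans hz1 (hN T z y hz2 (by omega))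
    have h1 := hSIML d β hβ Λ 0 y (sph d n) (by
      intro ω hω
      obtain ⟨z, hz1, hz2⟩ := SIMN_cross hω n (by
        have : nrm (0 : Fin d → ℤ) = 0 := by
          unfold nrm
          simp
        omega) (by omega)
      exact ⟨z, SIMN_mem_sph hz1, hz2⟩)
    rw [key 0] at h1
    refine h1.trans (le_of_eq ?_)
    exact Finset.sum_congr rfl fun z _ => by rw [key z]
  -- limit
  have hl1 := (hup (IN 0) (hUPS d 0 0 ∅).2.1).1
  have hl2 : Tendsto (fun Λ : Finset (Ed d) => ∑ z ∈ sph d n, PW β Λ (CN 0 z) * PW β Λ (IN z))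
      atTop (𝓝 (∑ z ∈ sph d n, mW β (CN 0 z) * mW β (IN z))) :=
    tendsto_finsetSum _ fun z _ =>
      ((hup (CN 0 z) (hUPS d 0 z ∅).1).1).mul ((hup (IN z) (hUPS d z 0 ∅).2.1).1)
  have h3 : mW β (IN (0 : Fin d → ℤ)) ≤ ∑ z ∈ sph d n, mW β (CN 0 z) * mW β (IN z) :=
    le_of_tendsto_of_tendsto' hl1 hl2 hfin
  have h4 : ∑ z ∈ sph d n, mW β (CN 0 z) * mW β (IN z) = (∑ z ∈ sph d n, S2 β z) * th d β := by
    rw [Finset.sum_mul]
    refine Finset.sum_congr rfl fun z _ => ?_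
    rw [hINx z]
    rfl
  rw [h4] at h3
  have h5 : mW β (IN (0 : Fin d → ℤ)) = th d β := rfl
  rw [h5] at h3
  by_contra hcon
  push Not at hcon
  nlinarith

end IIC
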